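import Pool.Agent.Q325.MsMem

/-!
# MP_e2e0ab_lc: matrix symmetry under row permutations is NP-complete

`Pool.Agent.Q325.MS.MS A` is the problem MS of the file: the matrix `A` (a list of rows of Boolean
entries) is square, and its rows can be reordered so that the matrix becomes symmetric.
`Pool.Agent.Q325.MS.GI` is graph isomorphism for pairs of adjacency matrices.

We prove that MS is NP-complete under polynomial-time many-one reductions. So MS and graph
isomorphism are polynomially equivalent only if graph isomorphism is NP-complete; more exactly, MS
reduces to graph isomorphism if and only if graph isomorphism is NP-hard.

The reduction is from the problem of choosing exactly one variable in each clause of three positive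
literals. A permutation of the rows of a square matrix that makes it symmetric is a bijection from
the rows to the columns which, with the transposed relation, behaves like an involution. Padding
rows and columns with pairwise different numbers of ones keep classes of four indices apart, so
that inside a class only the four row exchanges of a small group are possible. One kind of class
carries a parity condition `x + y + z = 1` between the states of three classes, and another kind of
class (a four-cycle whose symmetries are the eight of a square, where the rotations by a right
angle are excluded because the rearranged matrix would not be symmetric) forbids that two given
variables are chosen together. Together the two conditions say that exactly one of the three is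
chosen.
-/

set_option autoImplicit false

namespace Pool.Agent.Results.MP_e2e0ab_lc.MatrixSymmetryNPComplete

open Pool.Agent.NPC Pool.Agent.Q325.MS

/-- MS is in NP and NP-hard, and it reduces to graph isomorphism in polynomial time if and only if
graph isomorphism is NP-hard. -/
theorem result :
    (InNPP MS ∧ NPHardP MS) ∧ (Reduces (lang MS) (lang GI) ↔ NPHardP GI) := by
  refine ⟨⟨Pool.Agent.NPC.Q325MS.inNP_MS, Pool.Agent.NPC.Q325MS.hard_MS⟩, fun h L hL => ?_,
    fun h => h _ Pool.Agent.NPC.Q325MS.inNP_MS⟩
  exact (Pool.Agent.NPC.Q325MS.hard_MS L hL).trans h

end Pool.Agent.Results.MP_e2e0ab_lc.MatrixSymmetryNPComplete
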