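import Pool.Agent.Q325.TfFin

/-!
# 2-factors with one directed cycle: the decision problem is NP-hard

Definitions: `Pool/Agent/Q325/TfDefs.lean` and `Pool/Agent/H622R2/MatGraph.lean`; complexity
classes: `Pool/Agent/NPC/Defs.lean`.

The reduction is from 3-SAT. For a formula with `m` clauses and `N = 3 m` slots (occurrences of
literals) there is a directed path of `N` vertices `(0, σ, τ)` for every slot `σ`; the last vertex
of the path of `σ` has arcs to the first vertices of the paths of the slots in the next clause
(cyclically). All directed cycles of the digraph consist of such paths, and contain the paths of
slots of all clauses. If the slots `σ`, `τ` are not complementary, then there are three further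
vertices which form a triangle, and a cycle of length four together with `(0, σ, τ)`, so that
`(0, σ, τ)` may be on the directed cycle or not. If they are complementary then there are two further
vertices, which are adjacent to each other and to the two vertices `(0, σ, τ)` and `(0, τ, σ)`; they
cannot be covered if both of these vertices are on the directed cycle, and can be covered
otherwise.
-/

set_option autoImplicit false

namespace Pool.Agent.Results.MP_2afc76_lc.OneDirectedHard

open Pool.Agent.NPC Pool.Agent.Q325.TF

/-- **It is NP-hard to decide whether the underlying graph of a digraph has a 2-factor one cycle of
which is a directed cycle of the digraph.** -/
theorem result : NPHardP OneDirected := Pool.Agent.NPC.Q325TF.hard.toNPHardP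

end Pool.Agent.Results.MP_2afc76_lc.OneDirectedHard
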